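import Pool.Agent.Q151.RPS.Search

/-!
# The searches, evaluated by the kernel
-/

set_option autoImplicit false

namespace Pool.Agent.Q151.RPS

/-- sporadic triples -/
def sp : List (List ℕ) := [[1, 4, 5], [1, 4, 6], [1, 4, 8], [1, 4, 10], [1, 4, 13], [1, 4, 18],
  [1, 5, 6], [1, 6, 7], [1, 6, 8], [1, 6, 10], [1, 6, 12], [1, 6, 14], [2, 4, 6]]

/-- the recursively partitionable `K_1 (a, b, c)` -/
def T3 : List ℕ → Bool
  | [a, b, c] =>
    (decide (a = 1) && ((decide (b = 1) && decide (c % 2 = 0)) ||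
      (decide (b = 2) && decide (c % 3 ≠ 2)) || (decide (b = 3) && decide (c % 2 = 0)))) ||
    decide ([a, b, c] ∈ sp)
  | _ => false

/-- one centre, three cliques -/
def P0 : Par := ⟨1, 3, fun _ => false, fun _ => false, T3⟩

/-- one centre, four cliques -/
def P1 : Par := ⟨1, 4, fun _ => false, fun _ => false, fun _ => false⟩

/-- two centres, six cliques -/
def P2 : Par := ⟨2, 6, T3, T3, fun _ => false⟩

/-- candidates for three centres and eight cliques -/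
def F3 : List (List ℕ) := [[1, 1, 1, 1, 2, 3, 4, 6], [1, 1, 1, 2, 2, 3, 4, 6],
  [1, 1, 1, 2, 3, 3, 4, 6], [1, 1, 2, 2, 2, 3, 4, 6], [1, 1, 1, 2, 3, 4, 4, 6],
  [1, 1, 2, 2, 3, 3, 4, 6], [1, 1, 1, 2, 3, 4, 5, 6], [1, 1, 2, 2, 3, 4, 4, 6],
  [1, 1, 2, 3, 3, 3, 4, 6], [1, 1, 1, 2, 3, 4, 6, 6], [1, 1, 2, 2, 3, 4, 5, 6],
  [1, 1, 2, 3, 3, 4, 4, 6], [1, 1, 1, 2, 3, 4, 6, 8], [1, 1, 2, 2, 3, 4, 6, 7],
  [1, 1, 1, 2, 3, 4, 6, 10], [1, 1, 2, 3, 3, 4, 6, 8], [1, 1, 2, 2, 3, 4, 6, 10],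
  [1, 1, 2, 3, 3, 4, 6, 10], [1, 1, 2, 2, 3, 4, 6, 12], [1, 1, 2, 3, 4, 5, 6, 10],
  [1, 1, 1, 2, 3, 4, 6, 16], [1, 1, 2, 2, 3, 4, 6, 16], [1, 1, 1, 2, 3, 4, 6, 20],
  [1, 1, 2, 3, 3, 4, 6, 18]]

/-- three centres, eight cliques -/
def P3 : Par := ⟨3, 8, T3, fun _ => true, fun l => decide (l ∈ F3)⟩

theorem search1 : search P1 [] 4 [] = true := by decide +kernel

theorem search2 : search P2 [] 6 [] = true := by decide +kernel

theorem search3 : search P3 F3 8 [] = true := by decide +kernel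

theorem small0 : (List.range 25).all (fun c => (List.range (c + 1)).all (fun b =>
    (List.range (b + 1)).all (fun a => decide (a = 0) || T3 [a, b, c] || !cond P0 [a, b, c]))) =
      true := by decide +kernel

end Pool.Agent.Q151.RPS
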