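import Pool.Agent.Q151.RPS.Kernel

/-!
# Recursively partitionable semistars with one centre and three cliques
-/

set_option autoImplicit false

namespace Pool.Agent.Q151.RPS

/-! ### large triples -/

/-- consequence of `T3 [x, y, z]` -/
def A3 (x y z : ℕ) : Prop :=
  (x = 1 ∧ y = 1 ∧ z % 2 = 0) ∨ (x = 1 ∧ y = 2 ∧ z % 3 ≠ 2) ∨ (x = 1 ∧ y = 3 ∧ z % 2 = 0) ∨
    (x ≤ 18 ∧ y ≤ 18 ∧ z ≤ 18)

theorem sp_le : ∀ t ∈ sp, ∀ x ∈ t, x ≤ 18 := by decide +kernel

theorem A3_of_T3 (x y z : ℕ) (h : T3 [x, y, z] = true) : A3 x y z := by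
  unfold T3 at h
  simp only [Bool.or_eq_true, Bool.and_eq_true, decide_eq_true_eq] at h
  rcases h with h | h
  · unfold A3; omega
  · have := sp_le _ h
    have h1 := this x (by simp)
    have h2 := this y (by simp)
    have h3 := this z (by simp)
    unfold A3; omega

theorem A3_insert (x y z : ℕ) (h : T3 ([y, z].orderedInsert (· ≤ ·) x) = true) :
    A3 x y z ∨ A3 y x z ∨ A3 y z x := by
  rw [List.orderedInsert_cons] at h
  split_ifs at h
  · exact Or.inl (A3_of_T3 _ _ _ h)
  · rw [List.orderedInsert_cons] at h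
    split_ifs at h
    · exact Or.inr (Or.inl (A3_of_T3 _ _ _ h))
    · exact Or.inr (Or.inr (A3_of_T3 _ _ _ h))

/-- consequence of `baseb` -/
def B3 (a b c L : ℕ) : Prop := L = a ∨ L = b ∨ L = c ∨
  (L < a ∧ (A3 (a - L) b c ∨ A3 b (a - L) c ∨ A3 b c (a - L))) ∨
  (L < b ∧ (A3 (b - L) a c ∨ A3 a (b - L) c ∨ A3 a c (b - L))) ∨
  (L < c ∧ (A3 (c - L) a b ∨ A3 a (c - L) b ∨ A3 a b (c - L)))

theorem B3_of_baseb (a b c L : ℕ) (h : baseb T3 [a, b, c] L = true) : B3 a b c L := by
  unfold baseb at h
  simp only [Bool.or_eq_true, decide_eq_true_eq, List.any_eq_true, Bool.and_eq_true] at h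
  unfold B3
  rcases h with h | ⟨x, hx, hL, h⟩
  · simp only [List.mem_cons, List.not_mem_nil, or_false] at h
    rcases h with h | h | h
    · exact Or.inl h
    · exact Or.inr (Or.inl h)
    · exact Or.inr (Or.inr (Or.inl h))
  · unfold red at h
    simp only [List.mem_cons, List.not_mem_nil, or_false] at hx
    have e0 : ∀ (y : ℕ) (t : List ℕ), (y :: t).erase y = t := fun y t => List.erase_cons_head _ _
    rcases hx with rfl | rfl | rfl
    · rw [e0] at h
      exact Or.inr (Or.inr (Or.inr (Or.inl ⟨hL, A3_insert _ _ _ h⟩)))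
    · by_cases hab : a = x
      · subst hab
        rw [e0] at h
        exact Or.inr (Or.inr (Or.inr (Or.inl ⟨hL, A3_insert _ _ _ h⟩)))
      · rw [List.erase_cons_tail (by simpa using hab), e0] at h
        exact Or.inr (Or.inr (Or.inr (Or.inr (Or.inl ⟨hL, A3_insert _ _ _ h⟩))))
    · by_cases hax : a = x
      · subst hax
        rw [e0] at h
        exact Or.inr (Or.inr (Or.inr (Or.inl ⟨hL, A3_insert _ _ _ h⟩)))
      · by_cases hbx : b = x
        · subst hbx
          rw [List.erase_cons_tail (by simpa using hax), e0] at h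
          exact Or.inr (Or.inr (Or.inr (Or.inr (Or.inl ⟨hL, A3_insert _ _ _ h⟩))))
        · rw [List.erase_cons_tail (by simpa using hax), List.erase_cons_tail (by simpa using hbx),
            e0] at h
          exact Or.inr (Or.inr (Or.inr (Or.inr (Or.inr ⟨hL, A3_insert _ _ _ h⟩))))

theorem B3_of_cond (a b c : ℕ) (h : cond P0 [a, b, c] = true) (L : ℕ) (hL : 1 ≤ L)
    (hLn : L < 1 + (a + b + c)) : B3 a b c L ∨ B3 a b c (1 + (a + b + c) - L) := by
  unfold cond at h
  have hsum : P0.s + [a, b, c].sum = 1 + (a + b + c) := by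
    simp [P0]; ring
  rw [hsum] at h
  have h1 := (List.all_eq_true.1 h) L (List.mem_range.2 hLn)
  have ht : trips P0 [a, b, c] = [] := by
    unfold trips
    have : P0.T1 = fun _ => false := rfl
    rw [this]
    simp
  rw [ht] at h1
  simp only [Bool.or_eq_true, Bool.and_eq_true, decide_eq_true_eq, List.not_mem_nil,
    false_and, and_false, or_false] at h1
  rcases h1 with (h1 | h1) | h1
  · omega
  · exact Or.inl (B3_of_baseb _ _ _ _ h1)
  · exact Or.inr (B3_of_baseb _ _ _ _ h1)

theorem T3_of_cond (a b c : ℕ) (ha : 1 ≤ a) (hab : a ≤ b) (hbc : b ≤ c)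
    (h : cond P0 [a, b, c] = true) : T3 [a, b, c] = true := by
  by_cases hc : c < 25
  · have h1 := (List.all_eq_true.1 ((List.all_eq_true.1 ((List.all_eq_true.1 small0) c
      (List.mem_range.2 hc))) b (List.mem_range.2 (by omega)))) a (List.mem_range.2 (by omega))
    simp only [Bool.or_eq_true, decide_eq_true_eq, Bool.not_eq_true', h, Bool.true_eq_false,
      or_false] at h1
    rcases h1 with h1 | h1
    · omega
    · exact h1
  · have hB := B3_of_cond a b c h
    by_contra hT
    have hT' : ¬ (a = 1 ∧ b = 1 ∧ c % 2 = 0) ∧ ¬ (a = 1 ∧ b = 2 ∧ c % 3 ≠ 2) ∧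
        ¬ (a = 1 ∧ b = 3 ∧ c % 2 = 0) := by
      unfold T3 at hT
      simp only [Bool.or_eq_true, Bool.and_eq_true, decide_eq_true_eq] at hT
      omega
    by_cases hb : 6 ≤ b
    · have h1 := hB 1 le_rfl (by omega)
      have ha1 : a = 1 := by
        unfold B3 A3 at h1
        omega
      have h2 := hB 2 (by norm_num) (by omega)
      subst ha1
      unfold B3 A3 at h2
      omega
    · by_cases h11 : a = 1 ∧ b = 1
      · have h2 := hB 2 (by norm_num) (by omega)
        obtain ⟨rfl, rfl⟩ := h11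
        unfold B3 A3 at h2
        omega
      · by_cases h12 : a = 1 ∧ b = 2
        · have h2 := hB 3 (by norm_num) (by omega)
          obtain ⟨rfl, rfl⟩ := h12
          unfold B3 A3 at h2
          omega
        · by_cases h13 : a = 1 ∧ b = 3
          · have h2 := hB 2 (by norm_num) (by omega)
            obtain ⟨rfl, rfl⟩ := h13
            unfold B3 A3 at h2
            omega
          · have h2 := hB (b + 1) (by omega) (by omega)
            unfold B3 A3 at h2
            omega

end Pool.Agent.Q151.RPS
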