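import Pool.Agent.Q151.RPS.Nec
import Pool.Agent.Q151.RPS.Triple

/-!
# Bounds for the numbers of cliques of recursively partitionable semistars with one, two and three
centres
-/

set_option autoImplicit false

namespace Pool.Agent.Q151.RPS

open Multiset

/-- the two parts of a split are a triple and its complement -/
def OK (P : Par) (m1 m2 : Multiset ℕ) : Prop :=
  card m1 = 3 ∧ P.T1 (m1.sort (· ≤ ·)) = true ∧ card m2 = P.j - 3 ∧
    P.T2 (m2.sort (· ≤ ·)) = true

theorem sort_sum (m : Multiset ℕ) : (m.sort (· ≤ ·)).sum = m.sum := by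
  rw [← Multiset.sum_coe, Multiset.sort_eq]

theorem sort_length (m : Multiset ℕ) : (m.sort (· ≤ ·)).length = card m := by
  rw [← Multiset.coe_card, Multiset.sort_eq]

theorem mem_sort' (m : Multiset ℕ) (x : ℕ) : x ∈ m.sort (· ≤ ·) ↔ x ∈ m := by
  rw [← Multiset.mem_coe, Multiset.sort_eq]

theorem baseb_of_Bs (P : Par) (m : Multiset ℕ) (hcard : card m = P.j)
    (hIH : ∀ m' : Multiset ℕ, m'.sum < m.sum → card m' = P.j → N P.s m' →
      P.inF (m'.sort (· ≤ ·)) = true) (L : ℕ) (hL : 1 ≤ L) (h : Bs P.s m L) :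
    baseb P.inF (m.sort (· ≤ ·)) L = true := by
  obtain ⟨a, ha, h⟩ := h
  unfold baseb
  simp only [Bool.or_eq_true, decide_eq_true_eq, List.any_eq_true, Bool.and_eq_true]
  rcases h with ⟨rfl, _⟩ | ⟨hLa, h⟩
  · left
    exact (mem_sort' m a).2 ha
  · right
    refine ⟨a, (mem_sort' m a).2 ha, hLa, ?_⟩
    rw [← sort_red]
    refine hIH _ ?_ ?_ h
    · have h1 : (a ::ₘ m.erase a).sum = m.sum := by rw [Multiset.cons_erase ha]
      rw [Multiset.sum_cons] at h1 ⊢
      omega
    · rw [Multiset.card_cons, Multiset.card_erase_of_mem ha, hcard]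
      have : 0 < card m := Multiset.card_pos_iff_exists_mem.2 ⟨a, ha⟩
      rw [hcard] at this
      simp only [Nat.pred_eq_sub_one]
      omega

theorem mem_trips (P : Par) (m m1 : Multiset ℕ) (h : m1 ≤ m) (hc : card m1 = 3)
    (hT : P.T1 (m1.sort (· ≤ ·)) = true) : 1 + m1.sum ∈ trips P (m.sort (· ≤ ·)) := by
  unfold trips
  refine List.mem_map.2 ⟨m1.sort (· ≤ ·), List.mem_filter.2 ⟨?_, hT⟩, by rw [sort_sum]⟩
  have := mem_subs _ _ (sublist_of_le m m1 h)
  rwa [sort_length, hc] at this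

theorem mem_rests (P : Par) (m m1 : Multiset ℕ) (h : m1 ≤ m) (hc : card m1 = P.j - 3)
    (hT : P.T2 (m1.sort (· ≤ ·)) = true) : (P.s - 1) + m1.sum ∈ rests P (m.sort (· ≤ ·)) := by
  unfold rests
  refine List.mem_map.2 ⟨m1.sort (· ≤ ·), List.mem_filter.2 ⟨?_, hT⟩, by rw [sort_sum]⟩
  have := mem_subs _ _ (sublist_of_le m m1 h)
  rwa [sort_length, hc] at this

theorem cond_of_N (P : Par) (m : Multiset ℕ) (hN : N P.s m) (hcard : card m = P.j)
    (hIH : ∀ m' : Multiset ℕ, m'.sum < m.sum → card m' = P.j → N P.s m' →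
      P.inF (m'.sort (· ≤ ·)) = true)
    (hsplit : ∀ (s1 s2 : ℕ) (M : Multiset (ℕ × ℕ)), 1 ≤ s1 → 1 ≤ s2 → s1 + s2 = P.s →
      fz (M.map (fun p => p.1 + p.2)) = m → N s1 (fz (M.map Prod.fst)) →
      N s2 (fz (M.map Prod.snd)) →
      m = fz (M.map Prod.fst) + fz (M.map Prod.snd) ∧
      ((s1 = 1 ∧ OK P (fz (M.map Prod.fst)) (fz (M.map Prod.snd))) ∨
      (s2 = 1 ∧ OK P (fz (M.map Prod.snd)) (fz (M.map Prod.fst))))) :
    cond P (m.sort (· ≤ ·)) = true := by
  unfold cond
  rw [List.all_eq_true]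
  intro L hL
  rw [List.mem_range, sort_sum] at hL
  simp only [Bool.or_eq_true, Bool.and_eq_true, decide_eq_true_eq, sort_sum]
  by_cases h0 : L = 0
  · exact Or.inl (Or.inl (Or.inl (Or.inl h0)))
  rcases N_cases P.s m hN L (by omega) hL with h | h | ⟨s1, s2, M, h1, h2, hs, hM, hN1, hN2, hsum1, hsum2⟩
  · exact Or.inl (Or.inl (Or.inl (Or.inr (baseb_of_Bs P m hcard hIH L (by omega) h))))
  · exact Or.inl (Or.inl (Or.inr (baseb_of_Bs P m hcard hIH _ (by omega) h)))
  · obtain ⟨hm, h⟩ := hsplit s1 s2 M h1 h2 hs hM hN1 hN2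
    have hle1 : fz (M.map Prod.fst) ≤ m := by
      rw [hm]; exact Multiset.le_add_right _ _
    have hle2 : fz (M.map Prod.snd) ≤ m := by
      rw [hm]; exact Multiset.le_add_left _ _
    rcases h with ⟨rfl, hc1, hT1, hc2, hT2⟩ | ⟨rfl, hc1, hT1, hc2, hT2⟩
    · refine Or.inl (Or.inr ⟨?_, ?_⟩)
      · rw [← hsum1]
        exact mem_trips P m _ hle1 hc1 hT1
      · have := mem_rests P m _ hle2 hc2 hT2
        rwa [show P.s - 1 + (fz (M.map Prod.snd)).sum = P.s + m.sum - L by omega] at this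
    · refine Or.inr ⟨?_, ?_⟩
      · have := mem_rests P m _ hle2 |> fun _ => mem_rests P m _ hle1 hc2 hT2
        rwa [show P.s - 1 + (fz (M.map Prod.fst)).sum = L by omega] at this
      · have := mem_trips P m _ hle2 hc1 hT1
        rwa [show 1 + (fz (M.map Prod.snd)).sum = P.s + m.sum - L by omega] at this

/-- the search applied to a recursively partitionable state -/
theorem mem_of_search (P : Par) (F : List (List ℕ)) (hF : ∀ l, P.inF l = true → l ∈ F)
    (hs : 1 ≤ P.s) (hj : 3 ≤ P.j) (hsearch : search P F P.j [] = true) (m : Multiset ℕ)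
    (hpos : ∀ x ∈ m, 1 ≤ x) (hcard : card m = P.j) (hc : cond P (m.sort (· ≤ ·)) = true) :
    m.sort (· ≤ ·) ∈ F := by
  have := search_sound P F hF hs hj P.j [] (m.sort (· ≤ ·)) hsearch
    (by simpa using Multiset.pairwise_sort m (· ≤ ·))
    (fun x hx => hpos x ((mem_sort' m x).1 (by simpa using hx)))
    (by rw [sort_length, hcard]) (by rw [List.nil_append, sort_length, hcard])
    (by simpa using hc)
  simpa using this

theorem sum_erase_lt (m : Multiset ℕ) (a : ℕ) (ha : a ∈ m) (h : 1 ≤ a) :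
    (m.erase a).sum < m.sum := by
  have h1 : (a ::ₘ m.erase a).sum = m.sum := by rw [Multiset.cons_erase ha]
  rw [Multiset.sum_cons] at h1
  omega

theorem sum_red_lt (m : Multiset ℕ) (a L : ℕ) (ha : a ∈ m) (h : 1 ≤ L) (hL : L < a) :
    ((a - L) ::ₘ m.erase a).sum < m.sum := by
  have h1 : (a ::ₘ m.erase a).sum = m.sum := by rw [Multiset.cons_erase ha]
  rw [Multiset.sum_cons] at h1 ⊢
  omega

theorem card_le_sum (m : Multiset ℕ) (h : ∀ x ∈ m, 1 ≤ x) : card m ≤ m.sum := by
  induction m using Multiset.induction with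
  | empty => simp
  | cons a m ih =>
    rw [Multiset.card_cons, Multiset.sum_cons]
    have h1 := h a (Multiset.mem_cons_self _ _)
    have h2 := ih (fun x hx => h x (Multiset.mem_cons_of_mem hx))
    omega

/-- `Bs` gives a smaller state with at most one clique less -/
theorem Bs_smaller (s : ℕ) (m : Multiset ℕ) (L : ℕ) (hL : 1 ≤ L) (hpos : ∀ x ∈ m, 1 ≤ x)
    (h : Bs s m L) : ∃ m', m'.sum < m.sum ∧ card m ≤ card m' + 1 ∧ N s m' := by
  obtain ⟨a, ha, h⟩ := h
  rcases h with ⟨rfl, h⟩ | ⟨hLa, h⟩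
  · refine ⟨m.erase a, sum_erase_lt m a ha hL, ?_, h⟩
    rw [Multiset.card_erase_of_mem ha]
    simp only [Nat.pred_eq_sub_one]
    omega
  · refine ⟨_, sum_red_lt m a L ha hL hLa, ?_, h⟩
    rw [Multiset.card_cons, Multiset.card_erase_of_mem ha]
    simp only [Nat.pred_eq_sub_one]
    omega

/-- one centre: at most three cliques -/
theorem N1_card : ∀ (n : ℕ) (m : Multiset ℕ), m.sum = n → N 1 m → card m ≤ 3 := by
  intro n
  induction n using Nat.strong_induction_on with
  | _ n ih =>
    intro m hn hN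
    by_contra hcon
    have hpos := N_pos 1 m hN
    have hsum := card_le_sum m hpos
    by_cases h4 : card m = 4
    · have hc := cond_of_N P1 m hN h4 (fun m' hm' hc' hN' => by
        have := ih _ (by omega) m' rfl hN'
        simp only [P1] at hc'
        omega) (fun s1 s2 M h1 h2 hs _ _ _ => by
        simp only [P1] at hs
        omega)
      have := mem_of_search P1 [] (fun l hl => by simp [P1] at hl) le_rfl (by decide) search1 m hpos
        h4 hc
      simp at this
    · rcases N_cases 1 m hN 1 le_rfl (by omega) with h | h | ⟨s1, s2, M, h1, h2, hs, _⟩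
      · obtain ⟨m', h1, h2, h3⟩ := Bs_smaller 1 m 1 le_rfl hpos h
        have := ih _ (by omega) m' rfl h3
        omega
      · obtain ⟨m', h1, h2, h3⟩ := Bs_smaller 1 m _ (by omega) hpos h
        have := ih _ (by omega) m' rfl h3
        omega
      · omega

/-- one centre, three cliques -/
theorem N1_T3 : ∀ (n : ℕ) (m : Multiset ℕ), m.sum = n → N 1 m → card m = 3 →
    T3 (m.sort (· ≤ ·)) = true := by
  intro n
  induction n using Nat.strong_induction_on with
  | _ n ih =>
    intro m hn hN hcard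
    have hpos := N_pos 1 m hN
    have hc := cond_of_N P0 m hN hcard (fun m' hm' hc' hN' => ih _ (by omega) m' rfl hN' hc')
      (fun s1 s2 M h1 h2 hs _ _ _ => by
        simp only [P0] at hs
        omega)
    have hlen := sort_length m
    rw [hcard] at hlen
    have hsorted := Multiset.pairwise_sort m (· ≤ ·)
    have hp : ∀ x ∈ m.sort (· ≤ ·), 1 ≤ x := fun x hx => hpos x ((mem_sort' m x).1 hx)
    obtain ⟨a, b, c, habc⟩ := List.length_eq_three.1 hlen
    rw [habc] at hc hsorted hp ⊢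
    simp only [List.pairwise_cons, List.mem_cons, List.not_mem_nil, or_false, forall_eq_or_imp,
      forall_eq] at hsorted hp
    exact T3_of_cond a b c hp.1 hsorted.1.1 hsorted.2.1 hc

/-- two centres: at most five cliques -/
theorem N2_card : ∀ (n : ℕ) (m : Multiset ℕ), m.sum = n → N 2 m → card m ≤ 5 := by
  intro n
  induction n using Nat.strong_induction_on with
  | _ n ih =>
    intro m hn hN
    by_contra hcon
    have hpos := N_pos 2 m hN
    have hsum := card_le_sum m hpos
    have key : ∀ (s1 s2 : ℕ) (M : Multiset (ℕ × ℕ)), 1 ≤ s1 → 1 ≤ s2 → s1 + s2 = 2 →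
      fz (M.map (fun p => p.1 + p.2)) = m → N s1 (fz (M.map Prod.fst)) →
      N s2 (fz (M.map Prod.snd)) → s1 = 1 ∧ card m = 6 ∧
        m = fz (M.map Prod.fst) + fz (M.map Prod.snd) ∧ card (fz (M.map Prod.fst)) = 3 ∧
        card (fz (M.map Prod.snd)) = 3 ∧ T3 ((fz (M.map Prod.fst)).sort (· ≤ ·)) = true ∧
        T3 ((fz (M.map Prod.snd)).sort (· ≤ ·)) = true := by
      intro s1 s2 M h1 h2 hs hM hN1 hN2
      obtain rfl : s1 = 1 := by omega
      obtain rfl : s2 = 1 := by omega
      have hc1 := N1_card _ _ rfl hN1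
      have hc2 := N1_card _ _ rfl hN2
      obtain ⟨hle, heq⟩ := split_card M
      rw [hM] at hle heq
      have h3 : card (fz (M.map Prod.fst)) = 3 := by omega
      have h4 : card (fz (M.map Prod.snd)) = 3 := by omega
      exact ⟨rfl, by omega, heq (by omega), h3, h4, N1_T3 _ _ rfl hN1 h3, N1_T3 _ _ rfl hN2 h4⟩
    by_cases h6 : card m = 6
    · have hc := cond_of_N P2 m hN h6 (fun m' hm' hc' hN' => by
        have := ih _ (by omega) m' rfl hN'
        simp only [P2] at hc'
        omega) (fun s1 s2 M h1 h2 hs hM hN1 hN2 => by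
        obtain ⟨hs1, _, hm, hc1, hc2, hT1, hT2⟩ := key s1 s2 M h1 h2 hs hM hN1 hN2
        exact ⟨hm, Or.inl ⟨hs1, hc1, hT1, hc2, hT2⟩⟩)
      have := mem_of_search P2 [] (fun l hl => by simp [P2] at hl) (by decide) (by decide) search2 m
        hpos h6 hc
      simp at this
    · rcases N_cases 2 m hN 1 le_rfl (by omega) with h | h | ⟨s1, s2, M, h1, h2, hs, hM, hN1, hN2, _⟩
      · obtain ⟨m', h1, h2, h3⟩ := Bs_smaller 2 m 1 le_rfl hpos h
        have := ih _ (by omega) m' rfl h3
        omega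
      · obtain ⟨m', h1, h2, h3⟩ := Bs_smaller 2 m _ (by omega) hpos h
        have := ih _ (by omega) m' rfl h3
        omega
      · have := (key s1 s2 M h1 h2 hs hM hN1 hN2).2.1
        omega

/-- three centres, eight cliques: the clique sizes are in the list `F3` -/
theorem N3_mem : ∀ (n : ℕ) (m : Multiset ℕ), m.sum = n → N 3 m → card m = 8 →
    m.sort (· ≤ ·) ∈ F3 := by
  intro n
  induction n using Nat.strong_induction_on with
  | _ n ih =>
    intro m hn hN hcard
    have hpos := N_pos 3 m hN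
    refine mem_of_search P3 F3 (fun l hl => by simpa [P3] using hl) (by decide) (by decide) search3 m
      hpos hcard (cond_of_N P3 m hN hcard (fun m' hm' hc' hN' => ?_)
        (fun s1 s2 M h1 h2 hs hM hN1 hN2 => ?_))
    · have := ih _ (by omega) m' rfl hN' hc'
      simpa [P3] using this
    · obtain ⟨hle, heq⟩ := split_card M
      rw [hM] at hle heq
      simp only [P3] at hs
      rcases (show (s1 = 1 ∧ s2 = 2) ∨ (s1 = 2 ∧ s2 = 1) by omega) with ⟨rfl, rfl⟩ | ⟨rfl, rfl⟩
      · have hc1 := N1_card _ _ rfl hN1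
        have hc2 := N2_card _ _ rfl hN2
        have h3 : card (fz (M.map Prod.fst)) = 3 := by omega
        have h4 : card (fz (M.map Prod.snd)) = 5 := by omega
        exact ⟨heq (by omega), Or.inl ⟨rfl, h3, N1_T3 _ _ rfl hN1 h3, h4, rfl⟩⟩
      · have hc1 := N2_card _ _ rfl hN1
        have hc2 := N1_card _ _ rfl hN2
        have h3 : card (fz (M.map Prod.fst)) = 5 := by omega
        have h4 : card (fz (M.map Prod.snd)) = 3 := by omega
        exact ⟨heq (by omega), Or.inr ⟨rfl, h4, N1_T3 _ _ rfl hN2 h4, h3, rfl⟩⟩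

/-- a recursively partitionable `K_3 (b)` with eight cliques has `b` in the list `F3` -/
theorem mem_F3 (b : Fin 8 → ℕ) (hpos : ∀ i, 1 ≤ b i) (hmono : Monotone b)
    (h : RP _ (semistar 3 b)) : List.ofFn b ∈ F3 := by
  rw [semistar_iff] at h
  have hmap : (Finset.univ : Finset (Fin 8)).val.map b = ((List.ofFn b : List ℕ) : Multiset ℕ) := by
    rw [Fin.univ_val_map]
  have hfz : fz ((Finset.univ : Finset (Fin 8)).val.map b) = ((List.ofFn b : List ℕ) : Multiset ℕ) := by
    rw [← hmap]
    unfold fz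
    rw [Multiset.filter_eq_self]
    intro x hx
    obtain ⟨i, _, rfl⟩ := Multiset.mem_map.1 hx
    have := hpos i
    omega
  have h1 := N3_mem _ ((List.ofFn b : List ℕ) : Multiset ℕ) rfl ⟨b, h, hfz⟩ (by simp)
  have h2 : ((List.ofFn b : List ℕ) : Multiset ℕ).sort (· ≤ ·) = List.ofFn b := by
    have hp : List.Perm (((List.ofFn b : List ℕ) : Multiset ℕ).sort (· ≤ ·)) (List.ofFn b) := by
      rw [← Multiset.coe_eq_coe, Multiset.sort_eq]
    exact hp.eq_of_pairwise' (Multiset.pairwise_sort _ _) hmono.sortedLE_ofFn.pairwise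
  rwa [h2] at h1

end Pool.Agent.Q151.RPS
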