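import Mathlib

/-!
# A verified search for lists of clique sizes satisfying the necessary conditions
-/

set_option autoImplicit false

namespace Pool.Agent.Q151.RPS

/-- sublists of length `k` -/
def subs : ℕ → List ℕ → List (List ℕ)
  | 0, _ => [[]]
  | _ + 1, [] => []
  | k + 1, a :: l => (subs k l).map (fun t => a :: t) ++ subs (k + 1) l

theorem mem_subs : ∀ (l t : List ℕ), t.Sublist l → t ∈ subs t.length l := by
  intro l
  induction l with
  | nil =>
    intro t ht
    rw [List.sublist_nil] at ht
    subst ht
    simp [subs]
  | cons a l ih =>
    intro t ht
    rcases t with _ | ⟨b, t⟩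
    · simp [subs]
    · simp only [List.length_cons, subs, List.mem_append, List.mem_map]
      rcases ht with _ | ⟨_, ht⟩ | ⟨_, ht⟩
      · right
        have := ih (b :: t) (by assumption)
        simpa using this
      · left
        exact ⟨t, ih t (by assumption), rfl⟩

/-- parameters: number of centres, number of cliques, admissible triples, admissible
complements, admissible lists -/
structure Par where
  /-- number of centres -/
  s : ℕ
  /-- number of cliques -/
  j : ℕ
  /-- admissible triples -/
  T1 : List ℕ → Bool
  /-- admissible complements of triples -/
  T2 : List ℕ → Bool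
  /-- admissible lists of length `j` -/
  inF : List ℕ → Bool

/-- replace the entry `a` by `a - L` in an increasing list -/
def red (l : List ℕ) (a L : ℕ) : List ℕ := (l.erase a).orderedInsert (· ≤ ·) (a - L)

/-- a part with `L` vertices without centre can be cut off -/
def baseb (inF : List ℕ → Bool) (l : List ℕ) (L : ℕ) : Bool :=
  decide (L ∈ l) || l.any (fun a => decide (L < a) && inF (red l a L))

/-- orders of parts with one centre -/
def trips (P : Par) (l : List ℕ) : List ℕ := ((subs 3 l).filter P.T1).map (fun t => 1 + t.sum)

/-- orders of the complementary parts -/
def rests (P : Par) (l : List ℕ) : List ℕ :=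
  ((subs (P.j - 3) l).filter P.T2).map (fun t => (P.s - 1) + t.sum)

/-- necessary condition -/
def cond (P : Par) (l : List ℕ) : Bool :=
  (List.range (P.s + l.sum)).all (fun L => decide (L = 0) || baseb P.inF l L ||
    baseb P.inF l (P.s + l.sum - L) ||
    (decide (L ∈ trips P l) && decide (P.s + l.sum - L ∈ rests P l)) ||
    (decide (L ∈ rests P l) && decide (P.s + l.sum - L ∈ trips P l)))

/-- first number at least `u` not in the list -/
def nextu (C : List ℕ) : ℕ → ℕ → ℕ
  | 0, u => u
  | k + 1, u => if u ∈ C then nextu C k (u + 1) else u

/-- orders realised by a prefix -/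
def covs (P : Par) (p : List ℕ) : List ℕ :=
  p ++ (trips P p ++ (rests P p ++ (subs (P.j - 1) p).map (fun t => P.s + t.sum)))

/-- check of the lists which arise from members of `F` by enlarging an entry by `u` -/
def extF (P : Par) (F : List (List ℕ)) (p : List ℕ) (u : ℕ) : Bool :=
  F.all (fun f => f.all (fun g =>
    !(p.isPrefixOf ((f.erase g).orderedInsert (· ≤ ·) (g + u)) &&
      (((f.erase g).orderedInsert (· ≤ ·) (g + u)).drop p.length).all (fun y => decide (u < y))) ||
    decide ((f.erase g).orderedInsert (· ≤ ·) (g + u) ∈ F) ||
    !cond P ((f.erase g).orderedInsert (· ≤ ·) (g + u))))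

/-- one node of the search (without the recursive calls) -/
def node (P : Par) (F : List (List ℕ)) (r : ℕ) (p : List ℕ) (u : ℕ) : Bool :=
  decide (1 ≤ u) && decide (u ∉ covs P p) &&
    (decide (r ≠ 0) || decide (u ≤ P.s + p.sum) ||
      decide (p.orderedInsert (· ≤ ·) (u - (P.s + p.sum)) ∉ F)) &&
    extF P F p u

/-- search with `r` entries missing -/
def search (P : Par) (F : List (List ℕ)) : ℕ → List ℕ → Bool
  | 0, p => decide (p ∈ F) || !cond P p
  | r + 1, p => node P F r p (nextu (covs P p) 60 1) &&
      (List.range (nextu (covs P p) 60 1 + 1)).all (fun x => decide (x = 0) ||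
        p.any (fun y => decide (x < y)) || search P F r (p ++ [x]))

theorem sublist_left (u : ℕ) (p q t : List ℕ) (h : t.Sublist (p ++ q)) (hq : ∀ x ∈ q, u < x)
    (ht : ∀ x ∈ t, x ≤ u) : t.Sublist p := by
  rw [List.sublist_append_iff] at h
  obtain ⟨t1, t2, rfl, h1, h2⟩ := h
  have : t2 = [] := by
    rcases t2 with _ | ⟨a, t2⟩
    · rfl
    · exfalso
      have ha := hq a (h2.subset (by simp))
      have := ht a (by simp)
      omega
  subst this
  simpa using h1

theorem le_sum (t : List ℕ) (x : ℕ) (hx : x ∈ t) : x ≤ t.sum := List.single_le_sum (by simp) x hx

theorem search_sound (P : Par) (F : List (List ℕ)) (hF : ∀ l, P.inF l = true → l ∈ F)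
    (hs : 1 ≤ P.s) (hj : 3 ≤ P.j) :
    ∀ (r : ℕ) (p q : List ℕ), search P F r p = true → (p ++ q).Pairwise (· ≤ ·) →
      (∀ x ∈ p ++ q, 1 ≤ x) → q.length = r → (p ++ q).length = P.j → cond P (p ++ q) = true →
      p ++ q ∈ F := by
  intro r
  induction r with
  | zero =>
    intro p q h _ _ hq _ hc
    rw [List.length_eq_zero_iff] at hq
    subst hq
    rw [List.append_nil] at hc ⊢
    unfold search at h
    simpa [hc] using h
  | succ r ih =>
    intro p q h hsort hpos hq hlen hc
    rw [search, Bool.and_eq_true] at h
    obtain ⟨hn, hrec⟩ := h
    generalize hu : nextu (covs P p) 60 1 = u at hn hrec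
    obtain ⟨x, t, rfl⟩ : ∃ x t, q = x :: t := by
      rcases q with _ | ⟨x, t⟩
      · simp at hq
      · exact ⟨x, t, rfl⟩
    by_cases hxu : x ≤ u
    · -- the next entry is at most `u`
      have h1 := (List.all_eq_true.1 hrec) x (List.mem_range.2 (by omega))
      simp only [Bool.or_eq_true, decide_eq_true_eq, List.any_eq_true] at h1
      rcases h1 with (h1 | ⟨y, hy, hxy⟩) | h1
      · have := hpos x (by simp)
        omega
      · have := (List.pairwise_append.1 hsort).2.2 y hy x (by simp)
        omega
      · have := ih (p ++ [x]) t h1 (by simpa using hsort) (by simpa using hpos)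
          (by simpa using hq) (by simpa using hlen) (by simpa using hc)
        simpa using this
    · -- all the later entries exceed `u`
      have hqu : ∀ y ∈ x :: t, u < y := by
        intro y hy
        have h1 := (List.pairwise_append.1 hsort).2.1
        rcases List.mem_cons.1 hy with rfl | hy
        · omega
        · have := (List.pairwise_cons.1 h1).1 y hy
          omega
      unfold node at hn
      simp only [Bool.and_eq_true, Bool.or_eq_true, decide_eq_true_eq] at hn
      obtain ⟨⟨⟨hu1, huC⟩, h7⟩, hext⟩ := hn
      set l := p ++ x :: t with hl
      have hleft : ∀ t' : List ℕ, t'.Sublist l → (∀ y ∈ t', y ≤ u) → t'.Sublist p := fun t' h1 h2 =>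
        sublist_left u p (x :: t) t' h1 hqu h2
      have hxl : x ∈ l := by simp [hl]
      have hul : u < P.s + l.sum := by
        have := le_sum l x hxl
        omega
      have hsubs : ∀ (k : ℕ) (t' : List ℕ), t' ∈ subs k l → t'.Sublist l ∧ t'.length = k := by
        have hgen : ∀ (m : List ℕ) (k : ℕ) (t' : List ℕ), t' ∈ subs k m →
            t'.Sublist m ∧ t'.length = k := by
          intro m
          induction m with
          | nil =>
            intro k t' ht'
            rcases k with _ | k
            · simp [subs] at ht'
              simp [ht']
            · simp [subs] at ht'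
          | cons a m ihm =>
            intro k t' ht'
            rcases k with _ | k
            · simp [subs] at ht'
              simp [ht']
            · simp only [subs, List.mem_append, List.mem_map] at ht'
              rcases ht' with ⟨t'', h1, rfl⟩ | h1
              · obtain ⟨h2, h3⟩ := ihm k t'' h1
                exact ⟨h2.cons_cons a, by simp [h3]⟩
              · obtain ⟨h2, h3⟩ := ihm (k + 1) t' h1
                exact ⟨h2.cons a, h3⟩
        exact hgen l
      have hc1 := (List.all_eq_true.1 (show _ = true from hc)) u (List.mem_range.2 hul)
      simp only [Bool.or_eq_true, Bool.and_eq_true, decide_eq_true_eq] at hc1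
      have herase : ∀ a ∈ l, (l.erase a).sum + a = l.sum := fun a ha => by
        have := List.sum_erase ha
        omega
      rcases hc1 with (((hc1 | hc1) | hc1) | hc1) | hc1
      · omega
      · -- a part of order `u` without centre
        unfold baseb at hc1
        simp only [Bool.or_eq_true, decide_eq_true_eq, List.any_eq_true, Bool.and_eq_true] at hc1
        rcases hc1 with hc1 | ⟨a, ha, hua, hin⟩
        · exfalso
          apply huC
          unfold covs
          rw [List.mem_append]
          left
          rcases List.mem_append.1 hc1 with h1 | h1
          · exact h1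
          · exact absurd (hqu u h1) (lt_irrefl _)
        · have hf := hF _ hin
          unfold extF at hext
          have h1 := (List.all_eq_true.1 ((List.all_eq_true.1 hext) _ hf)) (a - u)
            (by unfold red; rw [List.mem_orderedInsert]; exact Or.inl rfl)
          have e1 : (red l a u).erase (a - u) = l.erase a := List.erase_orderedInsert _ _
          rw [e1, Nat.sub_add_cancel hua.le, List.orderedInsert_erase _ _ ha hsort] at h1
          simp only [Bool.or_eq_true, Bool.not_eq_true', decide_eq_true_eq, Bool.and_eq_false_iff,
            hc, Bool.true_eq_false, or_false] at h1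
          rcases h1 with (h1 | h1) | h1
          · exfalso
            rw [hl] at h1
            have : p.isPrefixOf (p ++ x :: t) = true := by
              rw [List.isPrefixOf_iff_prefix]
              exact List.prefix_append _ _
            rw [this] at h1
            exact Bool.noConfusion h1
          · exfalso
            rw [hl, List.drop_left] at h1
            have : (x :: t).all (fun y => decide (u < y)) = true := by
              rw [List.all_eq_true]
              intro y hy
              exact decide_eq_true (hqu y hy)
            rw [this] at h1
            exact Bool.noConfusion h1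
          · exact h1
      · -- a part of order `n - u` without centre
        exfalso
        unfold baseb at hc1
        simp only [Bool.or_eq_true, decide_eq_true_eq, List.any_eq_true, Bool.and_eq_true] at hc1
        rcases hc1 with hc1 | ⟨a, ha, hua, hin⟩
        · have h1 := herase _ hc1
          have h2 := hleft (l.erase (P.s + l.sum - u)) List.erase_sublist (fun y hy => by
            have := le_sum _ y hy
            omega)
          have h3 : (l.erase (P.s + l.sum - u)).length = P.j - 1 := by
            rw [List.length_erase_of_mem hc1, hlen]
          apply huC
          unfold covs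
          rw [List.mem_append, List.mem_append, List.mem_append]
          refine Or.inr (Or.inr (Or.inr (List.mem_map.2 ⟨_, h3 ▸ mem_subs _ _ h2, ?_⟩)))
          omega
        · have h1 := herase _ ha
          have h2 := hleft _ List.erase_sublist (fun y hy => by
            have := le_sum _ y hy
            omega : ∀ y ∈ l.erase a, y ≤ u)
          have h3 : (l.erase a).length = P.j - 1 := by
            rw [List.length_erase_of_mem ha, hlen]
          have h4 : l.length = p.length + (r + 1) := by
            rw [hl, List.length_append, hq]
          have h5 : l.erase a = p := h2.eq_of_length_le (by omega)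
          have h6 : r = 0 := by
            have := h2.length_le
            omega
          unfold red at hin
          rw [h5] at hin h1
          rcases h7 with (h7 | h7) | h7
          · exact h7 h6
          · omega
          · apply h7
            have := hF _ hin
            rwa [show u - (P.s + p.sum) = a - (P.s + l.sum - u) by omega]
      · exfalso
        obtain ⟨hc1, _⟩ := hc1
        unfold trips at hc1
        obtain ⟨t', ht', hsum⟩ := List.mem_map.1 hc1
        obtain ⟨ht', hT⟩ := List.mem_filter.1 ht'
        obtain ⟨h1, h2⟩ := hsubs _ _ ht'
        have h3 := hleft t' h1 (fun y hy => by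
          have := le_sum _ y hy
          omega)
        apply huC
        unfold covs
        rw [List.mem_append, List.mem_append]
        refine Or.inr (Or.inl (List.mem_map.2 ⟨t', List.mem_filter.2 ⟨?_, hT⟩, hsum⟩))
        have := mem_subs _ _ h3
        rwa [h2] at this
      · exfalso
        obtain ⟨hc1, _⟩ := hc1
        unfold rests at hc1
        obtain ⟨t', ht', hsum⟩ := List.mem_map.1 hc1
        obtain ⟨ht', hT⟩ := List.mem_filter.1 ht'
        obtain ⟨h1, h2⟩ := hsubs _ _ ht'
        have h3 := hleft t' h1 (fun y hy => by
          have := le_sum _ y hy
          omega)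
        apply huC
        unfold covs
        rw [List.mem_append, List.mem_append, List.mem_append]
        refine Or.inr (Or.inr (Or.inl (List.mem_map.2 ⟨t', List.mem_filter.2 ⟨?_, hT⟩, hsum⟩)))
        have := mem_subs _ _ h3
        rwa [h2] at this

end Pool.Agent.Q151.RPS
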