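import Pool.Agent.Q151.RPS.Def

/-!
# Semistars as states

A state is a function `w : Option ι → ℕ` (`w none`: number of central vertices, `w (some i)`: size of
the `i`-th clique). Induced subgraphs of semistars are semistars; recursive partitionability is
described in terms of states.
-/

set_option autoImplicit false

namespace Pool.Agent.Q151.RPS

/-- the semistar structure given by `π : V → Option ι` -/
def GG {V ι : Type} (π : V → Option ι) : SimpleGraph V where
  Adj u v := u ≠ v ∧ (π u = π v ∨ π u = none ∨ π v = none)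
  symm := ⟨fun u v h => ⟨h.1.symm, by
    rcases h.2 with h | h | h
    · exact Or.inl h.symm
    · exact Or.inr (Or.inr h)
    · exact Or.inr (Or.inl h)⟩⟩
  loopless := ⟨fun u h => h.1 rfl⟩

/-- the canonical semistar with state `w` is recursively partitionable -/
def RS {ι : Type} (w : Option ι → ℕ) : Prop :=
  RP (Σ i, Fin (w i)) (GG (fun x : (Σ i, Fin (w i)) => x.1))

theorem semistar_iff {k : ℕ} (b0 : ℕ) (b : Fin k → ℕ) :
    RP _ (semistar b0 b) ↔ RS (fun i : Option (Fin k) => i.elim b0 b) := Iff.rfl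

theorem GG_iso {V W ι : Type} [Finite V] [Finite W] (π : V → Option ι) (ρ : W → Option ι)
    (h : ∀ i, Nat.card {x // π x = i} = Nat.card {x // ρ x = i}) : Nonempty (GG π ≃g GG ρ) := by
  have e : ∀ i, {x // π x = i} ≃ {x // ρ x = i} := fun i => (Finite.card_eq.1 (h i)).some
  let E : V ≃ W := (Equiv.sigmaFiberEquiv π).symm.trans
    ((Equiv.sigmaCongrRight e).trans (Equiv.sigmaFiberEquiv ρ))
  have hE : ∀ x, ρ (E x) = π x := fun x => (e (π x) ⟨x, rfl⟩).2
  refine ⟨⟨E, ?_⟩⟩
  intro x y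
  simp only [GG, hE, ne_eq, EmbeddingLike.apply_eq_iff_eq]

theorem card_fst {ι : Type} (w : Option ι → ℕ) (i : Option ι) :
    Nat.card {x : (Σ i, Fin (w i)) // x.1 = i} = w i := by
  rw [Nat.card_congr (Equiv.sigmaSubtype i)]
  simp

/-- recursive partitionability of `GG π` depends only on the fibre cardinalities -/
theorem RP_GG_iff {V ι : Type} [Finite ι] [Finite V] (π : V → Option ι) (w : Option ι → ℕ)
    (h : ∀ i, Nat.card {x // π x = i} = w i) : RP V (GG π) ↔ RS w := by
  obtain ⟨e⟩ := GG_iso π (fun x : (Σ i, Fin (w i)) => x.1) (fun i => by rw [h, card_fst])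
  exact ⟨fun hh => RP_iso _ _ _ _ _ rfl ⟨e⟩ hh, fun hh => RP_iso _ _ _ _ _ rfl ⟨e.symm⟩ hh⟩

theorem induce_GG {V ι : Type} (π : V → Option ι) (A : Set V) :
    (GG π).induce A = GG (fun x : A => π x) := by
  ext x y
  simp [GG, SimpleGraph.comap_adj, Subtype.ext_iff]

theorem card_sum {V κ : Type} [Finite V] [Fintype κ] (π : V → κ) :
    ∑ i, Nat.card {x // π x = i} = Nat.card V := by
  rw [← Nat.card_sigma]
  exact Nat.card_congr (Equiv.sigmaFiberEquiv π)

theorem card_state {ι : Type} [Fintype ι] (w : Option ι → ℕ) :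
    Nat.card (Σ i, Fin (w i)) = ∑ i, w i := by
  rw [Nat.card_sigma]; simp

/-- connectedness at the level of states -/
def conn {ι : Type} (w : Option ι → ℕ) : Prop :=
  w none ≠ 0 ∨ ∃ i, w i ≠ 0 ∧ ∀ j, j ≠ i → w j = 0

theorem connected_of_conn {ι : Type} (w : Option ι → ℕ) (h : conn w) :
    (GG (fun x : (Σ i, Fin (w i)) => x.1)).Connected := by
  rcases h with h | ⟨i, hi, h⟩
  · have hc : 0 < w none := Nat.pos_of_ne_zero h
    let c : (Σ i, Fin (w i)) := ⟨none, ⟨0, hc⟩⟩
    have hr : ∀ x, (GG (fun x : (Σ i, Fin (w i)) => x.1)).Reachable c x := by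
      intro x
      by_cases hx : c = x
      · rw [hx]
      · exact SimpleGraph.Adj.reachable ⟨hx, Or.inr (Or.inl rfl)⟩
    have : Nonempty (Σ i, Fin (w i)) := ⟨c⟩
    exact SimpleGraph.Connected.mk (fun x y => (hr x).symm.trans (hr y))
  · have hc : 0 < w i := Nat.pos_of_ne_zero hi
    let c : (Σ i, Fin (w i)) := ⟨i, ⟨0, hc⟩⟩
    have hall : ∀ x : (Σ i, Fin (w i)), x.1 = i := by
      intro x
      by_contra hne
      have := h _ hne
      have := x.2.2
      omega
    have hr : ∀ x, (GG (fun x : (Σ i, Fin (w i)) => x.1)).Reachable c x := by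
      intro x
      by_cases hx : c = x
      · rw [hx]
      · exact SimpleGraph.Adj.reachable ⟨hx, Or.inl (hall x).symm⟩
    have : Nonempty (Σ i, Fin (w i)) := ⟨c⟩
    exact SimpleGraph.Connected.mk (fun x y => (hr x).symm.trans (hr y))

theorem of_connected {ι : Type} (w : Option ι → ℕ) (h0 : w none = 0)
    (h : (GG (fun x : (Σ i, Fin (w i)) => x.1)).Connected) (i j : Option ι) (hi : w i ≠ 0)
    (hj : w j ≠ 0) : i = j := by
  have key : ∀ x y : (Σ i, Fin (w i)),
      (GG (fun x : (Σ i, Fin (w i)) => x.1)).Reachable x y → x.1 = y.1 := by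
    intro x y hxy
    obtain ⟨p⟩ := hxy
    induction p with
    | nil => rfl
    | cons hadj _ ih =>
      rename_i a b c _
      rcases hadj.2 with h | h | h
      · exact h.trans ih
      · exfalso
        have := a.2.2
        have e : w a.1 = w none := by rw [show a.1 = none from h]
        omega
      · exfalso
        have := b.2.2
        have e : w b.1 = w none := by rw [show b.1 = none from h]
        omega
  exact key ⟨i, ⟨0, Nat.pos_of_ne_zero hi⟩⟩ ⟨j, ⟨0, Nat.pos_of_ne_zero hj⟩⟩ (h.preconnected _ _)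

/-- the fibre cardinalities of the classes of `f` -/
theorem card_swap {V κ τ : Type} [Finite V] [Fintype τ] (π : V → κ) (f : V → τ) (i : κ) :
    ∑ j, Nat.card {x : (f ⁻¹' {j} : Set V) // π x = i} = Nat.card {x // π x = i} := by
  rw [← card_sum (fun x : {x // π x = i} => f x)]
  refine Finset.sum_congr rfl fun j _ => Nat.card_congr ?_
  exact ⟨fun y => ⟨⟨y.1.1, y.2⟩, y.1.2⟩, fun y => ⟨⟨y.1.1, y.2⟩, y.1.2⟩, fun _ => rfl, fun _ => rfl⟩

/-- necessity: two-part splits of states -/
theorem RS_split {ι : Type} [Fintype ι] (w : Option ι → ℕ) (h : RS w) (L : ℕ) (hL : 1 ≤ L)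
    (hLn : L < ∑ i, w i) : ∃ w1 w2 : Option ι → ℕ, (∀ i, w1 i + w2 i = w i) ∧ ∑ i, w1 i = L ∧
      RS w1 ∧ RS w2 := by
  unfold RS at h
  rw [RP, card_state] at h
  rcases h with h | ⟨_, h⟩
  · omega
  obtain ⟨f, hf, hR⟩ := h 2 ![L, (∑ i, w i) - L] le_rfl
    (by
      generalize (∑ i, w i) = n at hLn ⊢
      intro i; fin_cases i
      · simp; omega
      · simp; omega)
    (by
      generalize (∑ i, w i) = n at hLn ⊢
      simp; omega)
  have hiff : ∀ j : Fin 2, RS (fun i => Nat.card {x : (f ⁻¹' {j} : Set _) // x.1.1 = i}) := by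
    intro j
    have h1 := hR j
    rw [induce_GG] at h1
    exact (RP_GG_iff _ _ (fun i => rfl)).1 h1
  refine ⟨_, _, fun i => ?_, ?_, hiff 0, hiff 1⟩
  · have := card_swap (fun x : (Σ i, Fin (w i)) => x.1) f i
    rw [card_fst, Fin.sum_univ_two] at this
    exact this
  · have := card_sum (fun x : (f ⁻¹' {(0 : Fin 2)} : Set _) => x.1.1)
    rw [this, hf 0]
    rfl

/-- necessity: connectedness -/
theorem RS_conn {ι : Type} [Fintype ι] (w : Option ι → ℕ) (h : RS w) (h0 : w none = 0)
    (i j : Option ι) (hi : w i ≠ 0) (hj : w j ≠ 0) : i = j := by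
  unfold RS at h
  rw [RP, card_state] at h
  rcases h with h | ⟨h, _⟩
  · by_contra hne
    have := Finset.add_le_sum (s := Finset.univ) (f := w) (fun _ _ => Nat.zero_le _)
      (Finset.mem_univ i) (Finset.mem_univ j) hne
    omega
  · exact of_connected w h0 h i j hi hj

/-- sufficiency: `k`-part splits of states -/
theorem RS_intro {ι : Type} [Fintype ι] (w : Option ι → ℕ) (hc : conn w)
    (h : ∀ (k : ℕ) (a : Fin k → ℕ), 2 ≤ k → (∀ i, 0 < a i) → ∑ i, a i = ∑ i, w i →
      ∃ W : Fin k → Option ι → ℕ, (∀ i, ∑ j, W j i = w i) ∧ (∀ j, ∑ i, W j i = a j) ∧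
        ∀ j, RS (W j)) : RS w := by
  unfold RS
  rw [RP, card_state]
  refine Or.inr ⟨connected_of_conn w hc, fun k a hk ha hs => ?_⟩
  obtain ⟨W, hW, hWa, hR⟩ := h k a hk ha hs
  let e : ∀ i, (Σ j : Fin k, Fin (W j i)) ≃ Fin (w i) := fun i =>
    (finSigmaFinEquiv (n := fun j => W j i)).trans (finCongr (hW i))
  let f : (Σ i, Fin (w i)) → Fin k := fun x => ((e x.1).symm x.2).1
  have hfib : ∀ (j : Fin k) (i : Option ι),
      Nat.card {x : (f ⁻¹' {j} : Set _) // x.1.1 = i} = W j i := by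
    intro j i
    have e1 : {x : (f ⁻¹' {j} : Set _) // x.1.1 = i} ≃ {z : (Σ j : Fin k, Fin (W j i)) // z.1 = j} := by
      refine ⟨fun x => ⟨(e i).symm (x.2 ▸ x.1.1.2), ?_⟩, fun z => ⟨⟨⟨i, e i z.1⟩, ?_⟩, rfl⟩, ?_, ?_⟩
      · obtain ⟨⟨⟨i', x⟩, hx⟩, hi⟩ := x
        simp only at hi
        subst hi
        exact hx
      · have := z.2
        simp only [f, Set.mem_preimage, Set.mem_singleton_iff, Equiv.symm_apply_apply]
        exact this
      · rintro ⟨⟨⟨i', x⟩, hx⟩, hi⟩
        simp only at hi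
        subst hi
        simp
      · rintro ⟨z, hz⟩
        simp
    rw [Nat.card_congr e1, Nat.card_congr (Equiv.sigmaSubtype j)]
    simp
  refine ⟨f, fun j => ?_, fun j => ?_⟩
  · rw [← card_sum (fun x : (f ⁻¹' {j} : Set _) => x.1.1), ← hWa j]
    exact Finset.sum_congr rfl fun i _ => hfib j i
  · rw [induce_GG]
    exact (RP_GG_iff _ _ (hfib j)).2 (hR j)

end Pool.Agent.Q151.RPS
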