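import Pool.Agent.Q151.RPS.Closed

/-!
# `K_3 (1, 1, 1, 2, 2, 3, 4, 6)` is recursively partitionable

The table `tab` lists states (number of centres, increasing list of clique sizes) together with a
two-part split for every size at most half the order; the parts are traceable or (up to order) again
in the table.
-/

set_option autoImplicit false

namespace Pool.Agent.Q151.RPS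

/-- states with splits -/
def tab : List (ℕ × List ℕ × List (ℕ × List ℕ)) := [
    (1, [0, 0, 0, 0, 0, 1, 1, 2], [(0, [0, 0, 0, 0, 0, 0, 1, 0]), (0, [0, 0, 0, 0, 0, 0, 0, 2])]),
    (1, [0, 0, 0, 0, 0, 1, 2, 3], [(0, [0, 0, 0, 0, 0, 1, 0, 0]), (0, [0, 0, 0, 0, 0, 0, 0, 2]),
    (0, [0, 0, 0, 0, 0, 0, 0, 3])]),
    (1, [0, 0, 0, 0, 0, 1, 1, 4], [(0, [0, 0, 0, 0, 0, 0, 1, 0]), (0, [0, 0, 0, 0, 0, 0, 0, 2]),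
    (1, [0, 0, 0, 0, 0, 1, 1, 0])]),
    (2, [0, 0, 0, 0, 1, 1, 1, 2], [(0, [0, 0, 0, 0, 0, 0, 1, 0]), (0, [0, 0, 0, 0, 0, 0, 0, 2]),
    (1, [0, 0, 0, 0, 1, 1, 0, 0])]),
    (1, [0, 0, 0, 0, 0, 1, 2, 4], [(0, [0, 0, 0, 0, 0, 0, 0, 1]), (0, [0, 0, 0, 0, 0, 0, 2, 0]),
    (0, [0, 0, 0, 0, 0, 0, 0, 3]), (0, [0, 0, 0, 0, 0, 0, 0, 4])]),
    (2, [0, 0, 0, 0, 1, 1, 2, 2], [(0, [0, 0, 0, 0, 0, 0, 0, 1]), (0, [0, 0, 0, 0, 0, 0, 0, 2]),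
    (1, [0, 0, 0, 0, 1, 1, 0, 0]), (1, [0, 0, 0, 0, 1, 0, 2, 0])]),
    (1, [0, 0, 0, 0, 0, 1, 3, 4], [(0, [0, 0, 0, 0, 0, 0, 1, 0]), (0, [0, 0, 0, 0, 0, 0, 0, 2]),
    (0, [0, 0, 0, 0, 0, 0, 3, 0]), (0, [0, 0, 0, 0, 0, 0, 0, 4])]),
    (1, [0, 0, 0, 0, 0, 1, 1, 6], [(0, [0, 0, 0, 0, 0, 0, 1, 0]), (0, [0, 0, 0, 0, 0, 0, 0, 2]),
    (1, [0, 0, 0, 0, 0, 1, 1, 0]), (0, [0, 0, 0, 0, 0, 0, 0, 4])]),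
    (2, [0, 0, 0, 0, 1, 1, 2, 3], [(0, [0, 0, 0, 0, 0, 0, 0, 1]), (0, [0, 0, 0, 0, 0, 0, 0, 2]),
    (0, [0, 0, 0, 0, 0, 0, 0, 3]), (1, [0, 0, 0, 0, 1, 0, 2, 0])]),
    (2, [0, 0, 0, 0, 1, 1, 1, 4], [(0, [0, 0, 0, 0, 0, 0, 1, 0]), (0, [0, 0, 0, 0, 0, 0, 0, 2]),
    (1, [0, 0, 0, 0, 1, 1, 0, 0]), (0, [0, 0, 0, 0, 0, 0, 0, 4])]),
    (3, [0, 0, 0, 1, 1, 1, 1, 2], [(0, [0, 0, 0, 0, 0, 0, 1, 0]), (0, [0, 0, 0, 0, 0, 0, 0, 2]),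
    (1, [0, 0, 0, 1, 1, 0, 0, 0]), (1, [0, 0, 0, 1, 0, 0, 0, 2])]),
    (1, [0, 0, 0, 0, 0, 1, 2, 6], [(0, [0, 0, 0, 0, 0, 0, 1, 0]), (0, [0, 0, 0, 0, 0, 0, 0, 2]),
    (0, [0, 0, 0, 0, 0, 0, 0, 3]), (1, [0, 0, 0, 0, 0, 1, 2, 0]), (0, [0, 0, 0, 0, 0, 0, 0, 5])]),
    (2, [0, 0, 0, 0, 1, 2, 2, 3], [(0, [0, 0, 0, 0, 0, 0, 1, 0]), (0, [0, 0, 0, 0, 0, 0, 0, 2]),
    (0, [0, 0, 0, 0, 0, 0, 0, 3]), (1, [0, 0, 0, 0, 1, 2, 0, 0]), (1, [0, 0, 0, 0, 1, 2, 1, 0])]),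
    (2, [0, 0, 0, 0, 1, 1, 2, 4], [(0, [0, 0, 0, 0, 0, 0, 0, 1]), (0, [0, 0, 0, 0, 0, 0, 0, 2]),
    (0, [0, 0, 0, 0, 0, 0, 0, 3]), (0, [0, 0, 0, 0, 0, 0, 0, 4]), (1, [0, 0, 0, 0, 1, 1, 2, 0])]),
    (3, [0, 0, 0, 1, 1, 1, 2, 2], [(0, [0, 0, 0, 0, 0, 0, 0, 1]), (0, [0, 0, 0, 0, 0, 0, 0, 2]),
    (1, [0, 0, 0, 1, 1, 0, 0, 0]), (1, [0, 0, 0, 1, 0, 0, 2, 0]), (1, [0, 0, 0, 1, 1, 0, 2, 0])]),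
    (1, [0, 0, 0, 0, 0, 1, 4, 5], [(0, [0, 0, 0, 0, 0, 1, 0, 0]), (0, [0, 0, 0, 0, 0, 0, 0, 2]),
    (0, [0, 0, 0, 0, 0, 0, 0, 3]), (0, [0, 0, 0, 0, 0, 0, 0, 4]), (0, [0, 0, 0, 0, 0, 0, 0, 5])]),
    (2, [0, 0, 0, 1, 1, 2, 2, 3], [(0, [0, 0, 0, 0, 1, 0, 0, 0]), (0, [0, 0, 0, 0, 0, 0, 2, 0]),
    (0, [0, 0, 0, 0, 0, 0, 0, 3]), (1, [0, 0, 0, 1, 0, 2, 0, 0]), (1, [0, 0, 0, 1, 1, 2, 0, 0])]),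
    (2, [0, 0, 0, 0, 1, 2, 3, 3], [(0, [0, 0, 0, 0, 0, 0, 0, 1]), (0, [0, 0, 0, 0, 0, 0, 0, 2]),
    (0, [0, 0, 0, 0, 0, 0, 0, 3]), (1, [0, 0, 0, 0, 1, 2, 0, 0]), (1, [0, 0, 0, 0, 1, 2, 1, 0])]),
    (2, [0, 0, 0, 1, 1, 1, 2, 4], [(0, [0, 0, 0, 0, 0, 1, 0, 0]), (0, [0, 0, 0, 0, 0, 0, 2, 0]),
    (1, [0, 0, 0, 1, 1, 0, 0, 0]), (0, [0, 0, 0, 0, 0, 0, 0, 4]), (1, [0, 0, 0, 1, 1, 0, 2, 0])]),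
    (3, [0, 0, 1, 1, 1, 1, 2, 2], [(0, [0, 0, 0, 0, 0, 1, 0, 0]), (0, [0, 0, 0, 0, 0, 0, 0, 2]),
    (1, [0, 0, 1, 1, 0, 0, 0, 0]), (1, [0, 0, 1, 0, 0, 0, 2, 0]), (1, [0, 0, 1, 1, 0, 0, 2, 0])]),
    (1, [0, 0, 0, 0, 0, 1, 4, 6], [(0, [0, 0, 0, 0, 0, 0, 0, 1]), (0, [0, 0, 0, 0, 0, 0, 2, 0]),
    (0, [0, 0, 0, 0, 0, 0, 0, 3]), (0, [0, 0, 0, 0, 0, 0, 0, 4]), (0, [0, 0, 0, 0, 0, 0, 0, 5]),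
    (0, [0, 0, 0, 0, 0, 0, 0, 6])]),
    (2, [0, 0, 0, 0, 1, 2, 3, 4], [(0, [0, 0, 0, 0, 0, 0, 0, 1]), (0, [0, 0, 0, 0, 0, 0, 0, 2]),
    (0, [0, 0, 0, 0, 0, 0, 0, 3]), (0, [0, 0, 0, 0, 0, 0, 0, 4]), (1, [0, 0, 0, 0, 1, 2, 1, 0]),
    (1, [0, 0, 0, 0, 0, 2, 3, 0])]),
    (2, [0, 0, 0, 0, 1, 1, 2, 6], [(0, [0, 0, 0, 0, 0, 1, 0, 0]), (0, [0, 0, 0, 0, 0, 0, 0, 2]),
    (0, [0, 0, 0, 0, 0, 0, 0, 3]), (0, [0, 0, 0, 0, 0, 0, 0, 4]), (0, [0, 0, 0, 0, 0, 0, 0, 5]),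
    (0, [0, 0, 0, 0, 0, 0, 0, 6])]),
    (3, [0, 0, 0, 1, 1, 2, 2, 3], [(0, [0, 0, 0, 0, 1, 0, 0, 0]), (0, [0, 0, 0, 0, 0, 0, 2, 0]),
    (0, [0, 0, 0, 0, 0, 0, 0, 3]), (1, [0, 0, 0, 1, 0, 2, 0, 0]), (1, [0, 0, 0, 1, 1, 2, 0, 0]),
    (1, [0, 0, 0, 0, 0, 2, 0, 3])]),
    (3, [0, 0, 0, 1, 1, 1, 2, 4], [(0, [0, 0, 0, 0, 0, 1, 0, 0]), (0, [0, 0, 0, 0, 0, 0, 2, 0]),
    (0, [0, 0, 0, 0, 0, 0, 0, 3]), (0, [0, 0, 0, 0, 0, 0, 0, 4]), (1, [0, 0, 0, 1, 1, 0, 2, 0]),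
    (1, [0, 0, 0, 1, 0, 0, 0, 4])]),
    (2, [0, 0, 0, 1, 1, 2, 3, 4], [(0, [0, 0, 0, 0, 1, 0, 0, 0]), (0, [0, 0, 0, 0, 0, 0, 0, 2]),
    (0, [0, 0, 0, 0, 0, 0, 3, 0]), (0, [0, 0, 0, 0, 0, 0, 0, 4]), (1, [0, 0, 0, 1, 1, 2, 0, 0]),
    (1, [0, 0, 0, 0, 0, 2, 3, 0])]),
    (2, [0, 0, 0, 0, 1, 3, 3, 4], [(0, [0, 0, 0, 0, 0, 0, 1, 0]), (0, [0, 0, 0, 0, 0, 0, 0, 2]),
    (0, [0, 0, 0, 0, 0, 0, 3, 0]), (0, [0, 0, 0, 0, 0, 0, 0, 4]), (1, [0, 0, 0, 0, 1, 3, 0, 0]),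
    (1, [0, 0, 0, 0, 0, 3, 2, 0])]),
    (2, [0, 0, 0, 1, 1, 1, 2, 6], [(0, [0, 0, 0, 0, 0, 1, 0, 0]), (0, [0, 0, 0, 0, 0, 0, 0, 2]),
    (1, [0, 0, 0, 1, 1, 0, 0, 0]), (1, [0, 0, 0, 1, 0, 0, 2, 0]), (1, [0, 0, 0, 1, 1, 0, 2, 0]),
    (0, [0, 0, 0, 0, 0, 0, 0, 6])]),
    (3, [0, 0, 1, 1, 1, 2, 2, 3], [(0, [0, 0, 0, 0, 1, 0, 0, 0]), (0, [0, 0, 0, 0, 0, 0, 0, 2]),
    (1, [0, 0, 1, 1, 0, 0, 0, 0]), (1, [0, 0, 1, 0, 0, 2, 0, 0]), (1, [0, 0, 1, 1, 0, 2, 0, 0]),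
    (1, [0, 0, 0, 0, 0, 2, 0, 3])]),
    (3, [0, 0, 1, 1, 1, 1, 2, 4], [(0, [0, 0, 0, 0, 0, 1, 0, 0]), (0, [0, 0, 0, 0, 0, 0, 0, 2]),
    (1, [0, 0, 1, 1, 0, 0, 0, 0]), (0, [0, 0, 0, 0, 0, 0, 0, 4]), (1, [0, 0, 1, 1, 0, 0, 2, 0]),
    (1, [0, 0, 1, 0, 0, 0, 0, 4])]),
    (2, [0, 0, 0, 1, 2, 2, 3, 4], [(0, [0, 0, 0, 0, 0, 1, 0, 0]), (0, [0, 0, 0, 0, 0, 2, 0, 0]),
    (0, [0, 0, 0, 0, 0, 0, 0, 3]), (0, [0, 0, 0, 0, 0, 0, 0, 4]), (1, [0, 0, 0, 1, 2, 1, 0, 0]),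
    (1, [0, 0, 0, 0, 2, 0, 3, 0]), (1, [0, 0, 0, 1, 2, 0, 3, 0])]),
    (2, [0, 0, 0, 1, 1, 2, 2, 6], [(0, [0, 0, 0, 0, 0, 0, 1, 0]), (0, [0, 0, 0, 0, 0, 0, 2, 0]),
    (0, [0, 0, 0, 0, 0, 0, 0, 3]), (1, [0, 0, 0, 1, 0, 2, 0, 0]), (1, [0, 0, 0, 1, 1, 2, 0, 0]),
    (0, [0, 0, 0, 0, 0, 0, 0, 6]), (1, [0, 0, 0, 1, 0, 2, 0, 3])]),
    (3, [0, 0, 1, 1, 2, 2, 2, 3], [(0, [0, 0, 0, 0, 0, 0, 1, 0]), (0, [0, 0, 0, 0, 0, 0, 2, 0]),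
    (1, [0, 0, 1, 0, 1, 0, 0, 0]), (1, [0, 0, 1, 0, 2, 0, 0, 0]), (1, [0, 0, 1, 1, 2, 0, 0, 0]),
    (1, [0, 0, 0, 0, 2, 0, 0, 3]), (1, [0, 0, 1, 0, 2, 0, 0, 3])]),
    (3, [0, 0, 1, 1, 1, 2, 2, 4], [(0, [0, 0, 0, 0, 0, 0, 0, 1]), (0, [0, 0, 0, 0, 0, 0, 2, 0]),
    (0, [0, 0, 0, 0, 0, 0, 0, 3]), (1, [0, 0, 1, 0, 0, 2, 0, 0]), (1, [0, 0, 1, 1, 0, 2, 0, 0]),
    (1, [0, 0, 1, 0, 0, 0, 0, 4]), (1, [0, 0, 1, 1, 0, 0, 0, 4])]),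
    (3, [0, 0, 0, 1, 1, 1, 2, 6], [(0, [0, 0, 0, 0, 0, 1, 0, 0]), (0, [0, 0, 0, 0, 0, 0, 0, 2]),
    (1, [0, 0, 0, 1, 1, 0, 0, 0]), (1, [0, 0, 0, 1, 0, 0, 2, 0]), (0, [0, 0, 0, 0, 0, 0, 0, 5]),
    (0, [0, 0, 0, 0, 0, 0, 0, 6]), (1, [0, 0, 0, 1, 0, 0, 2, 3])]),
    (2, [0, 0, 0, 0, 1, 3, 4, 5], [(0, [0, 0, 0, 0, 1, 0, 0, 0]), (0, [0, 0, 0, 0, 0, 0, 0, 2]),
    (0, [0, 0, 0, 0, 0, 0, 0, 3]), (0, [0, 0, 0, 0, 0, 0, 4, 0]), (0, [0, 0, 0, 0, 0, 0, 0, 5]),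
    (1, [0, 0, 0, 0, 1, 0, 4, 0]), (1, [0, 0, 0, 0, 1, 3, 2, 0])]),
    (2, [0, 0, 0, 1, 1, 2, 3, 6], [(0, [0, 0, 0, 0, 0, 0, 1, 0]), (0, [0, 0, 0, 0, 0, 0, 0, 2]),
    (0, [0, 0, 0, 0, 0, 0, 3, 0]), (0, [0, 0, 0, 0, 0, 0, 0, 4]), (1, [0, 0, 0, 1, 1, 2, 0, 0]),
    (0, [0, 0, 0, 0, 0, 0, 0, 6]), (1, [0, 0, 0, 1, 0, 2, 3, 0])]),
    (3, [0, 0, 1, 1, 2, 2, 3, 3], [(0, [0, 0, 0, 0, 0, 0, 0, 1]), (0, [0, 0, 0, 0, 0, 0, 0, 2]),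
    (0, [0, 0, 0, 0, 0, 0, 0, 3]), (1, [0, 0, 0, 0, 2, 0, 1, 0]), (1, [0, 0, 1, 1, 2, 0, 0, 0]),
    (1, [0, 0, 0, 0, 2, 0, 3, 0]), (1, [0, 0, 1, 0, 2, 0, 3, 0])]),
    (3, [0, 0, 1, 1, 1, 2, 3, 4], [(0, [0, 0, 0, 0, 0, 0, 1, 0]), (0, [0, 0, 0, 0, 0, 0, 0, 2]),
    (0, [0, 0, 0, 0, 0, 0, 3, 0]), (1, [0, 0, 1, 0, 0, 0, 0, 2]), (1, [0, 0, 1, 1, 0, 2, 0, 0]),
    (1, [0, 0, 1, 0, 0, 0, 0, 4]), (1, [0, 0, 1, 0, 0, 2, 3, 0])]),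
    (3, [0, 0, 1, 1, 1, 1, 2, 6], [(0, [0, 0, 0, 0, 0, 1, 0, 0]), (0, [0, 0, 0, 0, 0, 0, 0, 2]),
    (1, [0, 0, 1, 1, 0, 0, 0, 0]), (0, [0, 0, 0, 0, 0, 0, 0, 4]), (1, [0, 0, 1, 1, 0, 0, 2, 0]),
    (0, [0, 0, 0, 0, 0, 0, 0, 6]), (1, [0, 0, 1, 1, 0, 0, 0, 4])]),
    (2, [0, 0, 0, 0, 2, 3, 4, 5], [(0, [0, 0, 0, 0, 1, 0, 0, 0]), (0, [0, 0, 0, 0, 2, 0, 0, 0]),
    (0, [0, 0, 0, 0, 0, 3, 0, 0]), (0, [0, 0, 0, 0, 0, 0, 0, 4]), (0, [0, 0, 0, 0, 0, 0, 0, 5]),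
    (1, [0, 0, 0, 0, 2, 3, 0, 0]), (1, [0, 0, 0, 0, 2, 3, 1, 0]), (1, [0, 0, 0, 0, 2, 1, 4, 0])]),
    (2, [0, 0, 0, 1, 1, 2, 4, 6], [(0, [0, 0, 0, 0, 0, 0, 1, 0]), (0, [0, 0, 0, 0, 0, 0, 2, 0]),
    (0, [0, 0, 0, 0, 0, 0, 0, 3]), (0, [0, 0, 0, 0, 0, 0, 4, 0]), (1, [0, 0, 0, 1, 1, 2, 0, 0]),
    (0, [0, 0, 0, 0, 0, 0, 0, 6]), (1, [0, 0, 0, 1, 1, 0, 4, 0]), (1, [0, 0, 0, 1, 0, 2, 4, 0])]),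
    (3, [0, 0, 1, 1, 2, 2, 3, 4], [(0, [0, 0, 0, 0, 0, 0, 0, 1]), (0, [0, 0, 0, 0, 0, 0, 2, 0]),
    (0, [0, 0, 0, 0, 0, 0, 0, 3]), (1, [0, 0, 1, 0, 2, 0, 0, 0]), (1, [0, 0, 1, 1, 2, 0, 0, 0]),
    (1, [0, 0, 0, 0, 2, 0, 3, 0]), (1, [0, 0, 1, 0, 2, 0, 3, 0]), (1, [0, 0, 1, 0, 2, 0, 0, 4])]),
    (3, [0, 0, 1, 1, 1, 2, 4, 4], [(0, [0, 0, 0, 0, 0, 0, 0, 1]), (0, [0, 0, 0, 0, 0, 0, 0, 2]),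
    (1, [0, 0, 1, 0, 0, 0, 1, 0]), (0, [0, 0, 0, 0, 0, 0, 0, 4]), (1, [0, 0, 1, 1, 0, 2, 0, 0]),
    (1, [0, 0, 1, 0, 0, 0, 4, 0]), (1, [0, 0, 1, 1, 0, 0, 4, 0]), (1, [0, 0, 1, 0, 0, 2, 4, 0])]),
    (3, [0, 0, 1, 1, 1, 2, 2, 6], [(0, [0, 0, 0, 0, 0, 0, 1, 0]), (0, [0, 0, 0, 0, 0, 0, 0, 2]),
    (0, [0, 0, 0, 0, 0, 0, 0, 3]), (1, [0, 0, 1, 0, 0, 2, 0, 0]), (1, [0, 0, 1, 1, 0, 2, 0, 0]),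
    (2, [0, 0, 1, 1, 0, 2, 0, 0]), (1, [0, 0, 1, 0, 0, 2, 0, 3]), (1, [0, 0, 1, 0, 0, 2, 0, 4])]),
    (2, [0, 0, 0, 1, 2, 3, 4, 5], [(0, [0, 0, 0, 1, 0, 0, 0, 0]), (0, [0, 0, 0, 0, 2, 0, 0, 0]),
    (0, [0, 0, 0, 0, 0, 0, 0, 3]), (0, [0, 0, 0, 0, 0, 0, 0, 4]), (0, [0, 0, 0, 0, 0, 0, 0, 5]),
    (1, [0, 0, 0, 0, 2, 3, 0, 0]), (1, [0, 0, 0, 1, 2, 3, 0, 0]), (1, [0, 0, 0, 1, 2, 0, 4, 0])]),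
    (3, [0, 1, 1, 1, 2, 2, 3, 4], [(0, [0, 0, 0, 1, 0, 0, 0, 0]), (0, [0, 0, 0, 0, 0, 2, 0, 0]),
    (0, [0, 0, 0, 0, 0, 0, 3, 0]), (0, [0, 0, 0, 0, 0, 0, 0, 4]), (1, [0, 1, 1, 0, 2, 0, 0, 0]),
    (1, [0, 1, 0, 0, 0, 0, 0, 4]), (1, [0, 1, 0, 0, 2, 0, 3, 0]), (1, [0, 1, 0, 0, 2, 0, 0, 4])]),
    (3, [0, 0, 1, 1, 2, 2, 3, 5], [(0, [0, 0, 0, 0, 0, 0, 0, 1]), (0, [0, 0, 0, 0, 0, 0, 0, 2]),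
    (1, [0, 0, 1, 0, 0, 0, 0, 1]), (0, [0, 0, 0, 0, 0, 0, 0, 4]), (1, [0, 0, 1, 1, 2, 0, 0, 0]),
    (1, [0, 0, 0, 0, 0, 0, 3, 2]), (1, [0, 0, 1, 0, 2, 0, 3, 0]), (1, [0, 0, 1, 0, 2, 0, 0, 4])]),
    (3, [0, 0, 1, 1, 1, 2, 4, 5], [(0, [0, 0, 0, 0, 0, 0, 0, 1]), (0, [0, 0, 0, 0, 0, 0, 0, 2]),
    (0, [0, 0, 0, 0, 0, 0, 0, 3]), (1, [0, 0, 1, 0, 0, 0, 0, 2]), (1, [0, 0, 1, 1, 0, 2, 0, 0]),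
    (2, [0, 0, 1, 1, 0, 2, 0, 0]), (1, [0, 0, 1, 0, 0, 2, 0, 3]), (1, [0, 0, 1, 0, 0, 2, 4, 0])]),
    (2, [0, 0, 0, 1, 2, 3, 4, 6], [(0, [0, 0, 0, 0, 0, 0, 0, 1]), (0, [0, 0, 0, 0, 0, 2, 0, 0]),
    (0, [0, 0, 0, 0, 0, 0, 3, 0]), (0, [0, 0, 0, 0, 0, 0, 0, 4]), (0, [0, 0, 0, 0, 0, 0, 0, 5]),
    (1, [0, 0, 0, 0, 2, 3, 0, 0]), (1, [0, 0, 0, 1, 2, 3, 0, 0]), (1, [0, 0, 0, 1, 2, 0, 4, 0]),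
    (1, [0, 0, 0, 1, 0, 3, 4, 0])]),
    (3, [0, 0, 1, 1, 2, 2, 3, 6], [(0, [0, 0, 0, 0, 0, 0, 0, 1]), (0, [0, 0, 0, 0, 0, 0, 2, 0]),
    (1, [0, 0, 1, 0, 1, 0, 0, 0]), (1, [0, 0, 0, 0, 2, 0, 1, 0]), (0, [0, 0, 0, 0, 0, 0, 0, 5]),
    (1, [0, 0, 0, 0, 2, 0, 3, 0]), (1, [0, 0, 1, 0, 2, 0, 3, 0]), (1, [0, 0, 1, 0, 2, 0, 0, 4]),
    (1, [0, 0, 0, 0, 2, 0, 0, 6])]),
    (3, [0, 0, 1, 1, 1, 2, 4, 6], [(0, [0, 0, 0, 0, 0, 0, 0, 1]), (0, [0, 0, 0, 0, 0, 0, 2, 0]),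
    (1, [0, 0, 1, 0, 0, 0, 1, 0]), (1, [0, 0, 1, 0, 0, 0, 2, 0]), (1, [0, 0, 1, 1, 0, 2, 0, 0]),
    (1, [0, 0, 1, 0, 0, 0, 4, 0]), (1, [0, 0, 1, 0, 0, 0, 2, 3]), (1, [0, 0, 1, 0, 0, 2, 4, 0]),
    (1, [0, 0, 1, 0, 0, 0, 4, 3])]),
    (3, [0, 1, 1, 1, 2, 2, 3, 6], [(0, [0, 0, 0, 1, 0, 0, 0, 0]), (0, [0, 0, 0, 0, 0, 0, 0, 2]),
    (0, [0, 0, 0, 0, 0, 0, 3, 0]), (1, [0, 1, 0, 0, 2, 0, 0, 0]), (1, [0, 1, 0, 0, 2, 0, 1, 0]),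
    (0, [0, 0, 0, 0, 0, 0, 0, 6]), (1, [0, 1, 0, 0, 2, 0, 3, 0]), (1, [0, 1, 0, 0, 2, 0, 0, 4]),
    (2, [0, 1, 1, 0, 2, 0, 3, 0])]),
    (3, [0, 1, 1, 1, 2, 2, 4, 6], [(0, [0, 0, 0, 0, 0, 0, 1, 0]), (0, [0, 0, 0, 0, 0, 2, 0, 0]),
    (0, [0, 0, 0, 0, 0, 0, 0, 3]), (1, [0, 1, 0, 0, 2, 0, 0, 0]), (1, [0, 1, 0, 0, 2, 0, 1, 0]),
    (1, [0, 1, 0, 0, 0, 0, 4, 0]), (1, [0, 1, 0, 0, 2, 0, 0, 3]), (2, [0, 1, 1, 0, 2, 2, 0, 0]),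
    (1, [0, 1, 0, 0, 0, 0, 4, 3]), (1, [0, 1, 0, 0, 2, 0, 0, 6])]),
    (3, [0, 1, 1, 1, 2, 3, 4, 6], [(0, [0, 0, 0, 0, 0, 1, 0, 0]), (0, [0, 0, 0, 0, 0, 0, 2, 0]),
    (1, [0, 1, 1, 0, 0, 0, 0, 0]), (0, [0, 0, 0, 0, 0, 0, 0, 4]), (1, [0, 1, 0, 0, 2, 1, 0, 0]),
    (1, [0, 1, 0, 0, 0, 0, 4, 0]), (1, [0, 1, 0, 0, 0, 3, 2, 0]), (1, [0, 1, 0, 0, 0, 0, 4, 2]),
    (2, [0, 1, 1, 0, 2, 3, 0, 0]), (1, [0, 1, 0, 0, 0, 0, 2, 6])]),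
    (3, [0, 1, 1, 2, 2, 3, 4, 6], [(0, [0, 0, 0, 0, 1, 0, 0, 0]), (0, [0, 0, 0, 0, 0, 2, 0, 0]),
    (0, [0, 0, 0, 0, 0, 0, 3, 0]), (1, [0, 1, 0, 2, 0, 0, 0, 0]), (0, [0, 0, 0, 0, 0, 0, 0, 5]),
    (1, [0, 0, 0, 2, 0, 3, 0, 0]), (1, [0, 0, 0, 2, 0, 3, 1, 0]), (1, [0, 0, 0, 2, 0, 1, 4, 0]),
    (1, [0, 0, 0, 2, 0, 0, 0, 6]), (2, [0, 1, 0, 2, 2, 3, 0, 0]), (1, [0, 0, 0, 0, 0, 0, 4, 6])]),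
    (3, [1, 1, 1, 2, 2, 3, 4, 6], [(0, [0, 0, 1, 0, 0, 0, 0, 0]), (0, [0, 0, 0, 0, 2, 0, 0, 0]),
    (0, [0, 0, 0, 0, 0, 3, 0, 0]), (0, [0, 0, 0, 0, 0, 0, 4, 0]), (1, [1, 1, 0, 2, 0, 0, 0, 0]),
    (0, [0, 0, 0, 0, 0, 0, 0, 6]), (1, [1, 0, 0, 2, 0, 3, 0, 0]), (1, [1, 0, 0, 2, 0, 0, 4, 0]),
    (1, [1, 0, 0, 0, 0, 3, 4, 0]), (1, [1, 0, 0, 2, 0, 0, 0, 6]), (2, [1, 1, 0, 2, 2, 3, 0, 0])])]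

/-- the states of the table -/
def keys : List (ℕ × List ℕ) := tab.map (fun e => (e.1, e.2.1))

/-- traceable or in the table -/
def okb (s : ℕ) (c : List ℕ) : Bool :=
  (decide (1 ≤ s + c.sum) && decide ((c.filter (fun x => decide (x ≠ 0))).length ≤ s + 1)) ||
    decide ((s, c.insertionSort (· ≤ ·)) ∈ keys)

/-- check of one split -/
def okSplit (s : ℕ) (c : List ℕ) (L : ℕ) (q : ℕ × List ℕ) : Bool :=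
  decide (q.1 ≤ s) && decide (q.2.length = 8) && decide (q.1 + q.2.sum = L) &&
    decide (List.zipWith (· + ·) q.2 (List.zipWith (· - ·) c q.2) = c) &&
    okb q.1 q.2 && okb (s - q.1) (List.zipWith (· - ·) c q.2)

/-- check of one entry -/
def okEntry (e : ℕ × List ℕ × List (ℕ × List ℕ)) : Bool :=
  decide (1 ≤ e.1) && decide (e.2.1.length = 8) &&
    (List.range ((e.1 + e.2.1.sum) / 2)).all (fun l =>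
      match e.2.2[l]? with
      | none => false
      | some q => okSplit e.1 e.2.1 (l + 1) q)

theorem tab_ok : tab.all okEntry = true := by decide +kernel

/-- the family of states -/
def SS (s : ℕ) (c : Fin 8 → ℕ) : Prop :=
  Tr s c ∨ (1 ≤ s ∧ ∃ σ : Equiv.Perm (Fin 8), (s, List.ofFn (c ∘ σ)) ∈ keys)

theorem exists_ofFn (d : List ℕ) (h : d.length = 8) : ∃ u : Fin 8 → ℕ, List.ofFn u = d := by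
  refine ⟨fun i => d.get (Fin.cast h.symm i), ?_⟩
  apply List.ext_getElem
  · rw [List.length_ofFn, h]
  · intro i h1 h2
    rw [List.getElem_ofFn]
    rfl

theorem nzc_ofFn (u : Fin 8 → ℕ) :
    ((List.ofFn u).filter (fun x => decide (x ≠ 0))).length = nzc u := by
  unfold nzc
  rw [Finset.card_def, Finset.filter_val]
  have h1 : (Multiset.map u (Finset.univ : Finset (Fin 8)).val) = ((List.ofFn u : List ℕ) : Multiset ℕ) := by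
    rw [Fin.univ_val_map]
  have h2 := congrArg (fun m : Multiset ℕ => Multiset.card (m.filter (fun x => x ≠ 0))) h1
  simp only [Multiset.filter_map, Multiset.card_map, Multiset.filter_coe, Multiset.coe_card] at h2
  rw [← h2]
  rfl

theorem nzc_perm (u : Fin 8 → ℕ) (σ : Equiv.Perm (Fin 8)) : nzc (u ∘ σ) = nzc u := by
  unfold nzc
  refine Finset.card_bij (fun i _ => σ i) (fun i hi => ?_) (fun i _ j _ h => σ.injective h)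
    (fun j hj => ⟨σ.symm j, ?_, by simp⟩)
  · simpa using hi
  · simpa using hj

theorem keys_pos : ∀ k ∈ keys, 1 ≤ k.1 := by decide +kernel

theorem okb_sound (s : ℕ) (u : Fin 8 → ℕ) (h : okb s (List.ofFn u) = true)
    (τ : Equiv.Perm (Fin 8)) : SS s (u ∘ τ) := by
  unfold okb at h
  simp only [Bool.or_eq_true, Bool.and_eq_true, decide_eq_true_eq] at h
  rcases h with ⟨h2, h3⟩ | h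
  · left
    refine ⟨?_, ?_⟩
    · rw [List.sum_ofFn] at h2
      have : ∑ i, (u ∘ τ) i = ∑ i, u i := Equiv.sum_comp τ u
      rw [this]
      exact h2
    · rw [nzc_perm, ← nzc_ofFn]
      exact h3
  · right
    refine ⟨keys_pos _ h, (Tuple.sort u).trans τ.symm, ?_⟩
    have hs : List.ofFn ((u ∘ τ) ∘ ((Tuple.sort u).trans τ.symm)) =
        (List.ofFn u).insertionSort (· ≤ ·) := by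
      have e : (u ∘ τ) ∘ ((Tuple.sort u).trans τ.symm) = u ∘ Tuple.sort u := by
        funext i; simp
      rw [e]
      have hp : List.Perm (List.ofFn (u ∘ Tuple.sort u)) ((List.ofFn u).insertionSort (· ≤ ·)) :=
        (Equiv.Perm.ofFn_comp_perm _ _).trans (List.perm_insertionSort _ _).symm
      exact hp.eq_of_pairwise' (Tuple.monotone_sort u).sortedLE_ofFn.pairwise
        (List.pairwise_insertionSort _ _)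
    rw [hs]
    exact h

theorem zipWith_ofFn (f : ℕ → ℕ → ℕ) (u v : Fin 8 → ℕ) :
    List.zipWith f (List.ofFn u) (List.ofFn v) = List.ofFn (fun i => f (u i) (v i)) := by
  apply List.ext_getElem
  · simp only [List.length_zipWith, List.length_ofFn, min_self]
  · intro i h1 h2
    rw [List.getElem_zipWith, List.getElem_ofFn, List.getElem_ofFn, List.getElem_ofFn]

theorem SS_split_half (s : ℕ) (c : Fin 8 → ℕ) (h : 1 ≤ s ∧ ∃ σ : Equiv.Perm (Fin 8),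
    (s, List.ofFn (c ∘ σ)) ∈ keys) (L : ℕ) (hL : 1 ≤ L) (hL2 : L ≤ (s + ∑ i, c i) / 2) :
    ∃ s1 s2 c1 c2, SS s1 c1 ∧ SS s2 c2 ∧ s1 + s2 = s ∧ (∀ i, c1 i + c2 i = c i) ∧
      s1 + ∑ i, c1 i = L := by
  obtain ⟨_, σ, hσ⟩ := h
  obtain ⟨e, he, hk⟩ := List.mem_map.1 hσ
  have hok := List.all_eq_true.1 tab_ok e he
  obtain ⟨es, ec, eq⟩ := e
  simp only [Prod.mk.injEq] at hk
  obtain ⟨rfl, rfl⟩ := hk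
  unfold okEntry at hok
  simp only [Bool.and_eq_true, decide_eq_true_eq, List.all_eq_true, List.mem_range] at hok
  obtain ⟨⟨_, _⟩, hok⟩ := hok
  have hsum : (List.ofFn (c ∘ σ)).sum = ∑ i, c i := by
    rw [List.sum_ofFn]
    exact Equiv.sum_comp σ c
  have hl := hok (L - 1) (by rw [hsum]; omega)
  rw [show L - 1 + 1 = L by omega] at hl
  split at hl
  · simp at hl
  · rename_i q hq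
    obtain ⟨s1, d⟩ := q
    unfold okSplit at hl
    simp only [Bool.and_eq_true, decide_eq_true_eq] at hl
    obtain ⟨⟨⟨⟨⟨h1, h2⟩, h3⟩, h4⟩, h5⟩, h6⟩ := hl
    obtain ⟨u, rfl⟩ := exists_ofFn d h2
    rw [zipWith_ofFn] at h4 h6
    rw [zipWith_ofFn] at h4
    have h4' := List.ofFn_injective h4
    refine ⟨s1, es - s1, u ∘ σ.symm, (fun i => (c ∘ σ) i - u i) ∘ σ.symm, okb_sound _ _ h5 _,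
      okb_sound _ _ h6 _, by omega, fun i => ?_, ?_⟩
    · have := congrFun h4' (σ.symm i)
      simpa using this
    · rw [List.sum_ofFn] at h3
      rw [show ∑ i, (u ∘ σ.symm) i = ∑ i, u i from Equiv.sum_comp σ.symm u]
      exact h3

theorem SS_split (s : ℕ) (c : Fin 8 → ℕ) (h : SS s c) (L : ℕ) (hL : 1 ≤ L)
    (hL2 : L < s + ∑ i, c i) :
    ∃ s1 s2 c1 c2, SS s1 c1 ∧ SS s2 c2 ∧ s1 + s2 = s ∧ (∀ i, c1 i + c2 i = c i) ∧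
      s1 + ∑ i, c1 i = L := by
  rcases h with h | h
  · obtain ⟨s1, s2, c1, c2, h1, h2, h3⟩ := Tr_split _ s c rfl h L hL hL2
    exact ⟨s1, s2, c1, c2, Or.inl h1, Or.inl h2, h3⟩
  · by_cases hh : L ≤ (s + ∑ i, c i) / 2
    · exact SS_split_half s c h L hL hh
    · obtain ⟨s1, s2, c1, c2, h1, h2, h3, h4, h5⟩ := SS_split_half s c h (s + ∑ i, c i - L)
        (by omega) (by omega)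
      refine ⟨s2, s1, c2, c1, h2, h1, by omega, fun i => by rw [add_comm]; exact h4 i, ?_⟩
      have : ∑ i, c1 i + ∑ i, c2 i = ∑ i, c i := by
        rw [← Finset.sum_add_distrib]
        exact Finset.sum_congr rfl fun i _ => h4 i
      omega

theorem SS_RS (s : ℕ) (c : Fin 8 → ℕ) (h : SS s c) :
    RS (fun i : Option (Fin 8) => i.elim s c) := by
  refine RS_of_closed SS ?_ SS_split s c h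
  intro s c h
  rcases h with h | h
  · exact Tr_conn s c h
  · exact Or.inl (by omega)

theorem RP_example : RP _ (semistar 3 (![1, 1, 1, 2, 2, 3, 4, 6] : Fin 8 → ℕ)) := by
  rw [semistar_iff]
  refine SS_RS 3 _ (Or.inr ⟨by norm_num, 1, ?_⟩)
  decide +kernel

end Pool.Agent.Q151.RPS
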